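import Mathlib

set_option autoImplicit false

/-!
# Computable versus Baire measurable colourings: a decidable labelling problem

Let `T` be the tree of all finite strings `x` of natural numbers such that for each `e < |x|` the
entry `x(e)` is not the value of the program number `e` at `e`, as far as this can be seen within
`|x|` steps.  This tree is decidable and has infinite paths, but no computable path.

The labelling problem (two labels, radius two): call an edge from `v` to `w` active if `w` is the
only neighbour of `v` of larger degree, and the degrees of `v` and `w` code strings of `T`, the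
second one being an extension of the first one by one or two entries.  The two ends of an active
edge have to get different labels.  (This is a decidable set of allowed balls.)

* In a highly computable graph, a vertex is the start of at most one active edge, and an
  infinite chain of active edges would give a computable path of `T`.  So every such chain ends,
  and a vertex is coloured with the parity of the length of the chain starting there.
* The Borel graph: main vertices `(n, a)`, `n` a natural number, `a` in the Cantor space; an edge from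
  `(n, a)` to `(n + 1 + a 0, shift a)`; pendant vertices bring the degree of `(n, a)` up to the code
  of an initial segment of length `n + 4` of a path of `T`.  A Baire measurable solution would
  be generically constant on some level `N`, hence on the levels `N + 1` and `N + 2`, and the paths
  `N, N + 2` and `N, N + 1, N + 2` give contradictory parities.
-/

namespace Pool.Agent.Results.MP_8bf09d_lc.DecidableRule

open Nat.Partrec (Code)

/-! ### Definitions used in the statement -/

/-- A graph on `ℕ` is highly computable: some computable function lists the neighbours of every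
vertex. -/
def HighlyComputable (H : SimpleGraph ℕ) : Prop :=
  ∃ f : ℕ → List ℕ, Computable f ∧ ∀ a b : ℕ, H.Adj a b ↔ b ∈ f a

/-- A rule: which labelled rooted graphs are allowed. The vertices of the graph are
`0, …, n`, the root is `0`. -/
abbrev Rule (k : ℕ) : Type :=
  (n : ℕ) → SimpleGraph (Fin (n + 1)) → (Fin (n + 1) → Fin k) → Prop

/-- The rule depends only on the isomorphism type. -/
def IsoInvariant {k : ℕ} (P : Rule k) : Prop :=
  ∀ (n : ℕ) (Γ : SimpleGraph (Fin (n + 1))) (ℓ : Fin (n + 1) → Fin k)
    (σ : Equiv.Perm (Fin (n + 1))), σ 0 = 0 →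
    (P n (SimpleGraph.comap σ Γ) (ℓ ∘ σ) ↔ P n Γ ℓ)

open Classical in
/-- The code of a labelled rooted graph with vertices `0, …, n`: the list which gives for every
vertex its label and the increasing list of its neighbours. -/
noncomputable def code {n k : ℕ} (Γ : SimpleGraph (Fin (n + 1))) (ℓ : Fin (n + 1) → Fin k) :
    List (ℕ × List ℕ) :=
  (List.finRange (n + 1)).map fun i =>
    ((ℓ i : ℕ), List.map (fun j : Fin (n + 1) => (j : ℕ))
      (List.filter (fun j : Fin (n + 1) => Γ.Adj i j) (List.finRange (n + 1))))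

/-- The set of codes of the allowed labelled rooted graphs is decidable. -/
def DecidableCodes {k : ℕ} (P : Rule k) : Prop :=
  ∃ D : List (ℕ × List ℕ) → Prop, ComputablePred D ∧
    ∀ (n : ℕ) (Γ : SimpleGraph (Fin (n + 1))) (ℓ : Fin (n + 1) → Fin k),
      P n Γ ℓ ↔ D (code Γ ℓ)

/-- `c` is a solution on `G` of the labelling problem with radius `r` and rule `P`: for every
vertex `v`, the labelled ball of radius `r` around `v` (enumerated by `e` with `e 0 = v`) is
allowed. -/
def IsSolution {V : Type} {k : ℕ} (r : ℕ) (P : Rule k) (G : SimpleGraph V) (c : V → Fin k) :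
    Prop :=
  ∀ v : V, ∃ n : ℕ, ∃ e : Fin (n + 1) → V, Function.Injective e ∧ e 0 = v ∧
    Set.range e = {w : V | G.edist v w ≤ (r : ℕ∞)} ∧ P n (SimpleGraph.comap e G) (c ∘ e)

/-- mapping a computable function over a list is computable -/
theorem computable_list_map {β σ : Type} [Primcodable β] [Primcodable σ] {h : β → σ}
    (hh : Computable h) : Computable (fun l : List β => l.map h) := by
  have key : Computable (fun l : List β => (Nat.rec ([] : List σ)
      (fun n IH => IH ++ (Option.map h (l[n]?)).toList) l.length : List σ)) := by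
    refine Computable.nat_rec (f := fun l : List β => l.length) (g := fun _ => ([] : List σ))
      (h := fun (l : List β) (p : ℕ × List σ) => p.2 ++ (Option.map h (l[p.1]?)).toList) ?_ ?_ ?_
    · exact Computable.list_length
    · exact Computable.const _
    · have h1 : Computable (fun q : List β × (ℕ × List σ) => (q.1)[q.2.1]?) :=
        Computable.list_getElem?.comp Computable.fst (Computable.fst.comp Computable.snd)
      have h2 : Computable (fun q : List β × (ℕ × List σ) => Option.map h ((q.1)[q.2.1]?)) :=
        Computable.option_map h1 (hh.comp Computable.snd).to₂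
      have h3 : Computable (fun q : List β × (ℕ × List σ) =>
          (Option.map h ((q.1)[q.2.1]?)).toList) :=
        (Primrec.optionToList.to_comp).comp h2
      exact (Computable.list_append.comp (Computable.snd.comp Computable.snd) h3).to₂
  refine key.of_eq ?_
  intro l
  have : ∀ n, (Nat.rec ([] : List σ)
      (fun n IH => IH ++ (Option.map h (l[n]?)).toList) n : List σ) = (l.take n).map h := by
    intro n
    induction n with
    | zero => simp
    | succ n ih =>
      show _ ++ _ = _
      rw [ih, List.take_add_one, List.map_append]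
      congr 1
      cases l[n]? <;> simp
  rw [this, List.take_length]

/-- number of distinct entries -/
def dgl (l : List ℕ) : ℕ := l.dedup.length

theorem primrec_dgl : Primrec dgl := by
  have hmem : PrimrecRel (fun (L : List ℕ) (b : ℕ) => b ∈ L) := by
    refine (PrimrecRel.exists_mem_list (R := fun a b : ℕ => a = b) Primrec.eq).of_eq ?_
    intro L b
    simp
  have h1 : Primrec (fun l : List ℕ => l.foldr
      (fun a acc => if a ∈ acc then acc else a :: acc) []) := by
    refine Primrec.list_foldr (f := fun l : List ℕ => l) (g := fun _ => ([] : List ℕ))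
      (h := fun (_ : List ℕ) (p : ℕ × List ℕ) => if p.1 ∈ p.2 then p.2 else p.1 :: p.2)
      Primrec.id (Primrec.const _) ?_
    refine Primrec.ite ?_ ?_ ?_
    · exact hmem.comp (Primrec.snd.comp Primrec.snd) (Primrec.fst.comp Primrec.snd)
    · exact Primrec.snd.comp Primrec.snd
    · exact Primrec.list_cons.comp (Primrec.fst.comp Primrec.snd) (Primrec.snd.comp Primrec.snd)
  refine (Primrec.list_length.comp h1).of_eq ?_
  intro l
  unfold dgl
  congr 1
  induction l with
  | nil => simp
  | cons a l ih =>
    rw [List.foldr_cons, ih]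
    by_cases h : a ∈ l
    · rw [List.dedup_cons_of_mem h, if_pos (List.mem_dedup.2 h)]
    · rw [List.dedup_cons_of_notMem h, if_neg (fun h' => h (List.mem_dedup.1 h'))]

/-- Select the only neighbour of larger degree, or return the vertex itself. -/
def pick (v d : ℕ) (L : List (ℕ × ℕ)) : ℕ :=
  match (L.filter (fun p : ℕ × ℕ => d < p.2)).head? with
  | none => v
  | some p => if ∀ q ∈ L.filter (fun p : ℕ × ℕ => d < p.2), q.1 = p.1 then p.1 else v

theorem primrec_pick : Primrec (fun q : ℕ × ℕ × List (ℕ × ℕ) => pick q.1 q.2.1 q.2.2) := by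
  have hR : PrimrecRel (fun (p : ℕ × ℕ) (d : ℕ) => d < p.2) :=
    Primrec.nat_lt.comp Primrec.snd (Primrec.snd.comp Primrec.fst)
  have hF : Primrec (fun q : ℕ × ℕ × List (ℕ × ℕ) =>
      q.2.2.filter (fun p : ℕ × ℕ => q.2.1 < p.2)) :=
    (PrimrecRel.listFilter hR).comp (Primrec.snd.comp Primrec.snd) (Primrec.fst.comp Primrec.snd)
  have hH : Primrec (fun q : ℕ × ℕ × List (ℕ × ℕ) =>
      (q.2.2.filter (fun p : ℕ × ℕ => q.2.1 < p.2)).head?) := Primrec.list_head?.comp hF
  have hA : PrimrecRel (fun (L : List (ℕ × ℕ)) (p : ℕ × ℕ) => ∀ q ∈ L, q.1 = p.1) :=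
    PrimrecRel.forall_mem_list (R := fun q p : ℕ × ℕ => q.1 = p.1)
      (Primrec.eq.comp (Primrec.fst.comp Primrec.fst) (Primrec.fst.comp Primrec.snd))
  refine (Primrec.option_casesOn (o := fun q : ℕ × ℕ × List (ℕ × ℕ) =>
      (q.2.2.filter (fun p : ℕ × ℕ => q.2.1 < p.2)).head?) (f := fun q => q.1)
      (g := fun q p => if ∀ q' ∈ q.2.2.filter (fun p : ℕ × ℕ => q.2.1 < p.2), q'.1 = p.1 then p.1 else q.1)
      hH Primrec.fst ?_).of_eq ?_
  · refine Primrec.ite ?_ ?_ ?_
    · exact hA.comp (hF.comp Primrec.fst) Primrec.snd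
    · exact Primrec.fst.comp Primrec.snd
    · exact Primrec.fst.comp Primrec.fst
  · intro q
    unfold pick
    cases h : (q.2.2.filter (fun p : ℕ × ℕ => q.2.1 < p.2)).head? <;> rfl

/-- The successor function of a neighbour list function. -/
def nxt (nb : ℕ → List ℕ) (v : ℕ) : ℕ :=
  pick v (dgl (nb v)) ((nb v).map (fun w => (w, dgl (nb w))))

theorem computable_nxt {nb : ℕ → List ℕ} (hnb : Computable nb) : Computable (nxt nb) := by
  have hd : Computable (fun w => dgl (nb w)) := primrec_dgl.to_comp.comp hnb
  have hm : Computable (fun v => (nb v).map (fun w => (w, dgl (nb w)))) :=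
    (computable_list_map (Computable.pair Computable.id hd)).comp hnb
  exact primrec_pick.to_comp.comp (Computable.pair Computable.id (Computable.pair hd hm))

theorem nxt_of_unique {nb : ℕ → List ℕ} {v w : ℕ} (hw : w ∈ nb v)
    (hlt : dgl (nb v) < dgl (nb w))
    (huniq : ∀ w' ∈ nb v, dgl (nb v) < dgl (nb w') → w' = w) : nxt nb v = w := by
  unfold nxt pick
  have hmemF : ∀ q : ℕ × ℕ, q ∈ ((nb v).map (fun w => (w, dgl (nb w)))).filter
      (fun p : ℕ × ℕ => dgl (nb v) < p.2) → q.1 = w := by
    intro q hq
    rw [List.mem_filter, List.mem_map] at hq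
    obtain ⟨⟨w', hw', rfl⟩, h2⟩ := hq
    exact huniq w' hw' (by simpa using h2)
  cases hh : (((nb v).map (fun w => (w, dgl (nb w)))).filter
      (fun p : ℕ × ℕ => dgl (nb v) < p.2)).head? with
  | none =>
    exfalso
    rw [List.head?_eq_none_iff] at hh
    have : (w, dgl (nb w)) ∈ ((nb v).map (fun w => (w, dgl (nb w)))).filter
      (fun p : ℕ × ℕ => dgl (nb v) < p.2) := by
      rw [List.mem_filter, List.mem_map]
      exact ⟨⟨w, hw, rfl⟩, by simpa using hlt⟩
    rw [hh] at this
    simp at this
  | some p =>
    have hp : p ∈ ((nb v).map (fun w => (w, dgl (nb w)))).filter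
      (fun p : ℕ × ℕ => dgl (nb v) < p.2) := List.mem_of_mem_head? (by rw [hh]; rfl)
    have hp1 : p.1 = w := hmemF p hp
    have : ∀ q ∈ ((nb v).map (fun w => (w, dgl (nb w)))).filter
      (fun p : ℕ × ℕ => dgl (nb v) < p.2), q.1 = p.1 := by
      intro q hq
      rw [hp1, hmemF q hq]
    show (if _ then p.1 else v) = w
    rw [if_pos this, hp1]

theorem nxt_cases (nb : ℕ → List ℕ) (v : ℕ) :
    nxt nb v = v ∨ dgl (nb v) < dgl (nb (nxt nb v)) := by
  unfold nxt pick
  cases hh : (((nb v).map (fun w => (w, dgl (nb w)))).filter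
      (fun p : ℕ × ℕ => dgl (nb v) < p.2)).head? with
  | none => left; rfl
  | some p =>
    have hp : p ∈ ((nb v).map (fun w => (w, dgl (nb w)))).filter
      (fun p : ℕ × ℕ => dgl (nb v) < p.2) := List.mem_of_mem_head? (by rw [hh]; rfl)
    rw [List.mem_filter, List.mem_map] at hp
    obtain ⟨⟨w', hw', rfl⟩, h2⟩ := hp
    simp only
    split_ifs
    · right
      simpa using h2
    · left; rfl

/-! ### A tree without computable paths -/

/-- The string coded by a number. -/
def str (d : ℕ) : List ℕ := (Encodable.decode (α := List ℕ) d).getD []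

theorem str_encode (l : List ℕ) : str (Encodable.encode l) = l := by
  unfold str
  rw [Encodable.encodek]
  rfl

theorem primrec_str : Primrec str := Primrec.option_getD.comp Primrec.decode (Primrec.const [])

/-- Membership in the tree, for reversed strings: the entry number `e` is not the value of the
program `e` at `e`, as far as this can be seen after `l.length` steps. -/
def TT (l : List ℕ) : Prop :=
  ∀ e ∈ List.range l.length,
    ¬ (Code.evaln l.length (Denumerable.ofNat Code e) e = l.reverse[e]?)

theorem primrecPred_TT : PrimrecPred TT := by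
  have h1 : Primrec fun x : ℕ × List ℕ =>
      Code.evaln x.2.length (Denumerable.ofNat Code x.1) x.1 :=
    Code.primrec_evaln.comp (Primrec.pair (Primrec.pair (Primrec.list_length.comp Primrec.snd)
      ((Primrec.ofNat Code).comp Primrec.fst)) Primrec.fst)
  have h2 : Primrec fun x : ℕ × List ℕ => x.2.reverse[x.1]? :=
    Primrec.list_getElem?.comp (Primrec.list_reverse.comp Primrec.snd) Primrec.fst
  have h3 : PrimrecRel fun (e : ℕ) (l : List ℕ) =>
      ¬ (Code.evaln l.length (Denumerable.ofNat Code e) e = l.reverse[e]?) :=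
    (Primrec.eq.comp h1 h2).not
  exact (PrimrecRel.forall_mem_list h3).comp (Primrec.list_range.comp Primrec.list_length)
    Primrec.id

/-- The relation between the degrees of the two ends of an active edge. -/
def RD (d d' : ℕ) : Prop :=
  (TT (str d) ∧ TT (str d')) ∧
    (((str d').tail = str d ∨ (str d').tail.tail = str d) ∧ (str d).length < (str d').length)

theorem primrecRel_RD : PrimrecRel RD := by
  have h1 : Primrec fun x : ℕ × ℕ => str x.1 := primrec_str.comp Primrec.fst
  have h2 : Primrec fun x : ℕ × ℕ => str x.2 := primrec_str.comp Primrec.snd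
  refine ((primrecPred_TT.comp h1).and (primrecPred_TT.comp h2)).and
    (((Primrec.eq.comp (Primrec.list_tail.comp h2) h1).or
      (Primrec.eq.comp (Primrec.list_tail.comp (Primrec.list_tail.comp h2)) h1)).and
      (Primrec.nat_lt.comp (Primrec.list_length.comp h1) (Primrec.list_length.comp h2)))

/-- There is no computable infinite sequence of degrees, consecutive ones being related. -/
theorem no_chain {D : ℕ → ℕ} (hD : Computable D) (h : ∀ i, RD (D i) (D (i + 1))) : False := by
  have hlen : ∀ i, i ≤ (str (D i)).length := by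
    intro i
    induction i with
    | zero => exact Nat.zero_le _
    | succ i ih => exact Nat.lt_of_le_of_lt ih (h i).2.2
  have hsuf : ∀ i, str (D i) <:+ str (D (i + 1)) := by
    intro i
    rcases (h i).2.1 with h1 | h1
    · rw [← h1]; exact List.tail_suffix _
    · rw [← h1]; exact (List.tail_suffix _).trans (List.tail_suffix _)
  have hsuf' : ∀ i j, i ≤ j → str (D i) <:+ str (D j) := by
    intro i j hij
    induction j, hij using Nat.le_induction with
    | base => exact List.suffix_refl _
    | succ j _ ih => exact ih.trans (hsuf j)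
  have hent : ∀ i j e, i ≤ j → e < (str (D i)).length →
      (str (D j)).reverse[e]? = (str (D i)).reverse[e]? := by
    intro i j e hij he
    obtain ⟨t, ht⟩ := hsuf' i j hij
    rw [← ht, List.reverse_append, List.getElem?_append_left (by simpa using he)]
  let p : ℕ → ℕ := fun e => ((str (D (e + 1))).reverse[e]?).getD 0
  have hp : Computable p := by
    have h1 : Computable fun e => str (D (e + 1)) :=
      primrec_str.to_comp.comp (hD.comp Computable.succ)
    have h2 : Computable fun e => (str (D (e + 1))).reverse[e]? :=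
      Computable.list_getElem?.comp (Computable.list_reverse.comp h1) Computable.id
    have h3 : Primrec fun x : Option ℕ × ℕ => x.1.getD x.2 := Primrec.option_getD
    exact h3.to_comp.comp (Computable.pair h2 (Computable.const 0))
  obtain ⟨c, hc⟩ := Code.exists_code.1 (Partrec.nat_iff.1 hp.partrec)
  set e := Encodable.encode c with he
  have hce : Denumerable.ofNat Code e = c := by rw [he]; exact Denumerable.ofNat_encode c
  have hmem : p e ∈ Code.eval c e := by rw [hc]; simp
  obtain ⟨k, hk⟩ := Code.evaln_complete.1 hmem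
  let j := max (e + 1) k
  have hj1 : e + 1 ≤ j := le_max_left _ _
  have hj2 : k ≤ (str (D j)).length := (le_max_right _ _).trans (hlen j)
  have hlt : e < (str (D (e + 1))).length := hlen (e + 1)
  have h1 : p e ∈ Code.evaln (str (D j)).length c e := Code.evaln_mono hj2 hk
  have h2 : (str (D j)).reverse[e]? = some (p e) := by
    rw [hent (e + 1) j e hj1 hlt]
    have h3 : ((str (D (e + 1))).reverse)[e]? =
        some ((str (D (e + 1))).reverse[e]'(by simpa using hlt)) :=
      List.getElem?_eq_getElem _
    have h4 : p e = (str (D (e + 1))).reverse[e]'(by simpa using hlt) := by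
      show ((str (D (e + 1))).reverse[e]?).getD 0 = _
      rw [h3]; rfl
    rw [h3, h4]
  have hT : TT (str (D j)) := (h j).1.1
  have hT' := hT e (by rw [List.mem_range]; exact lt_of_lt_of_le (Nat.lt_succ_self e) (hj1.trans (hlen j)))
  apply hT'
  rw [hce, h2]
  exact h1

open Classical in
/-- The noncomputable path. -/
noncomputable def pth (e : ℕ) : ℕ := if 0 ∈ Code.eval (Denumerable.ofNat Code e) e then 1 else 0

/-- Reversed initial segments of the path. -/
noncomputable def seg : ℕ → List ℕ
  | 0 => []
  | n + 1 => pth n :: seg n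

theorem length_seg (n : ℕ) : (seg n).length = n := by
  induction n with
  | zero => rfl
  | succ n ih => simp [seg, ih]

theorem getElem_seg (n e : ℕ) (he : e < n) : (seg n).reverse[e]? = some (pth e) := by
  induction n with
  | zero => omega
  | succ n ih =>
    simp only [seg, List.reverse_cons]
    rcases Nat.lt_succ_iff_lt_or_eq.1 he with h | h
    · rw [List.getElem?_append_left (by simpa [length_seg] using h)]
      exact ih h
    · subst h
      rw [List.getElem?_append_right (by simp [length_seg])]
      simp [length_seg]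

theorem TT_seg (n : ℕ) : TT (seg n) := by
  intro e he h
  rw [List.mem_range, length_seg] at he
  rw [getElem_seg n e he] at h
  have h1 : pth e ∈ Code.eval (Denumerable.ofNat Code e) e := Code.evaln_sound h
  unfold pth at h1
  split_ifs at h1 with h2
  · have := Part.mem_unique h1 h2
    omega
  · exact h2 h1

/-- The degrees of the levels of the Borel graph. -/
noncomputable def ss (n : ℕ) : ℕ := Encodable.encode (seg (n + 4))

theorem encode_seg_lt (n : ℕ) : Encodable.encode (seg n) < Encodable.encode (seg (n + 1)) := by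
  show _ < Encodable.encode (pth n :: seg n)
  rw [Encodable.encode_list_cons]
  exact Nat.lt_succ_of_le (Nat.right_le_pair _ _)

theorem le_encode_seg (n : ℕ) : n ≤ Encodable.encode (seg n) := by
  induction n with
  | zero => exact Nat.zero_le _
  | succ n ih => exact Nat.lt_of_le_of_lt ih (encode_seg_lt n)

theorem ss_mono : StrictMono ss := strictMono_nat_of_lt_succ (fun n => encode_seg_lt (n + 4))

theorem four_le_ss (n : ℕ) : 4 ≤ ss n := (Nat.le_add_left 4 n).trans (le_encode_seg (n + 4))

theorem RD_ss (n m : ℕ) (h : m = n + 1 ∨ m = n + 2) : RD (ss n) (ss m) := by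
  unfold RD ss
  simp only [str_encode, length_seg]
  refine ⟨⟨TT_seg _, TT_seg _⟩, ?_, ?_⟩
  · rcases h with rfl | rfl
    · left; rfl
    · right; rfl
  · rcases h with rfl | rfl <;> omega

theorem exists_coloring {nb : ℕ → List ℕ} (hnb : Computable nb) :
    ∃ c : ℕ → Fin 2, Computable c ∧ ∀ v, RD (dgl (nb v)) (dgl (nb (nxt nb v))) →
      nxt nb v ≠ v → c v ≠ c (nxt nb v) := by
  classical
  have hnx := computable_nxt hnb
  have hd : Computable (fun w => dgl (nb w)) := primrec_dgl.to_comp.comp hnb
  -- iterates
  have hit : Computable₂ (fun u i : ℕ => (nxt nb)^[i] u) := by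
    have : Computable (fun q : ℕ × ℕ => (Nat.rec q.1 (fun _ IH => nxt nb IH) q.2 : ℕ)) := by
      refine Computable.nat_rec (f := fun q : ℕ × ℕ => q.2) (g := fun q : ℕ × ℕ => q.1)
        (h := fun (_ : ℕ × ℕ) (r : ℕ × ℕ) => nxt nb r.2) Computable.snd Computable.fst ?_
      exact (hnx.comp (Computable.snd.comp Computable.snd)).to₂
    refine Computable.of_eq this ?_
    rintro ⟨u, i⟩
    simp only
    induction i with
    | zero => rfl
    | succ i ih =>
      rw [Function.iterate_succ_apply', ← ih]
  -- stop vertices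
  let stop : ℕ → Prop := fun v =>
    nxt nb v = v ∨ ¬ RD (dgl (nb v)) (dgl (nb (nxt nb v)))
  have hstop : ComputablePred stop := by
    have h1 : Computable (fun v => decide (nxt nb v = v)) :=
      (Primrec.eq (α := ℕ)).decide.to_comp.comp hnx Computable.id
    have h2 : Computable (fun v => decide (RD (dgl (nb v)) (dgl (nb (nxt nb v))))) :=
      primrecRel_RD.decide.to_comp.comp hd (hd.comp hnx)
    refine ⟨inferInstance, ?_⟩
    refine (Primrec.or.to_comp.comp h1 (Primrec.not.to_comp.comp h2)).of_eq ?_
    intro v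
    simp [stop]
  have hex : ∀ u, ∃ i, stop ((nxt nb)^[i] u) := by
    intro u
    by_contra hcon
    push Not at hcon
    refine no_chain (D := fun i => dgl (nb ((nxt nb)^[i] u))) ?_ ?_
    · exact hd.comp (hit.comp (Computable.const u) Computable.id)
    · intro i
      have := hcon i
      simp only [stop, not_or, not_not] at this
      rw [Function.iterate_succ_apply']
      exact this.2
  have hP : ComputablePred (fun p : ℕ × ℕ => stop ((nxt nb)^[p.2] p.1)) := by
    obtain ⟨_, hs⟩ := hstop
    exact ⟨inferInstance, hs.comp hit⟩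
  have hfind : Computable (fun u => Nat.find (hex u)) :=
    Computable.find (P := fun u i => stop ((nxt nb)^[i] u)) hP hex
  refine ⟨fun u => if (Nat.find (hex u)).bodd then 1 else 0, ?_, ?_⟩
  · exact (Primrec.dom_bool (fun b : Bool => (if b then 1 else 0 : Fin 2))).to_comp.comp
      (Computable.nat_bodd.comp hfind)
  · intro v hv hne
    have hns : ¬ stop v := by
      rintro (h | h)
      · exact hne h
      · exact h hv
    have hfs : Nat.find (hex v) = Nat.find (hex (nxt nb v)) + 1 := by
      have h0 : 0 < Nat.find (hex v) := by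
        rw [Nat.find_pos]
        exact hns
      rw [Nat.find_eq_iff]
      constructor
      · have := Nat.find_spec (hex (nxt nb v))
        rwa [← Function.iterate_succ_apply] at this
      · intro m hm hst
        rcases m with _ | m
        · exact hns hst
        · rw [Function.iterate_succ_apply] at hst
          exact Nat.find_min (hex (nxt nb v)) (by omega) hst
    simp only [hfs, Nat.bodd_succ]
    cases (Nat.find (hex (nxt nb v))).bodd <;> simp

/-- degree -/
noncomputable def dg {V : Type} (G : SimpleGraph V) (v : V) : ℕ := (G.neighborSet v).ncard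

/-- The local constraint at a vertex. -/
def Good {V : Type} (R : ℕ → ℕ → Prop) (G : SimpleGraph V) (c : V → Fin 2) (v : V) : Prop :=
  ∀ w, G.Adj v w → R (dg G v) (dg G w) → dg G v < dg G w →
    (∀ w', G.Adj v w' → dg G v < dg G w' → w' = w) → c v ≠ c w

theorem dg_comap {V W : Type} (G : SimpleGraph V) (e : W → V) (he : Function.Injective e) (i : W)
    (h : ∀ w, G.Adj (e i) w → w ∈ Set.range e) : dg (SimpleGraph.comap e G) i = dg G (e i) := by
  unfold dg
  have : (SimpleGraph.comap e G).neighborSet i = e ⁻¹' (G.neighborSet (e i)) := by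
    ext j
    simp [SimpleGraph.mem_neighborSet]
  rw [this]
  exact Set.ncard_preimage_of_injective_subset_range he (fun w hw => h w hw)

theorem edist_le_two_of_adj {V : Type} {G : SimpleGraph V} {v w : V} (h : G.Adj v w) :
    G.edist v w ≤ 1 := by
  rw [SimpleGraph.edist_eq_one_iff_adj.2 h]

theorem good_iff' {V W : Type} (R : ℕ → ℕ → Prop) (G : SimpleGraph V) (c : V → Fin 2) (e : W → V)
    (he : Function.Injective e) (i : W) (hi : ∀ w, G.Adj (e i) w → w ∈ Set.range e)
    (hj : ∀ w, G.Adj (e i) w → ∀ w', G.Adj w w' → w' ∈ Set.range e) :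
    Good R (SimpleGraph.comap e G) (c ∘ e) i ↔ Good R G c (e i) := by
  have hdi : dg (SimpleGraph.comap e G) i = dg G (e i) := dg_comap G e he i hi
  have hdj : ∀ j, G.Adj (e i) (e j) → dg (SimpleGraph.comap e G) j = dg G (e j) := by
    intro j hij
    exact dg_comap G e he j (hj _ hij)
  constructor
  · intro h w hw h1 h3 h4
    obtain ⟨j, rfl⟩ := hi w hw
    have := h j hw (by rwa [hdi, hdj j hw]) (by rwa [hdi, hdj j hw]) ?_
    · exact this
    · intro j' hj' hlt
      apply he
      apply h4 _ hj'
      rw [hdi, hdj j' hj'] at hlt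
      exact hlt
  · intro h j hij h1 h3 h4
    have hij' : G.Adj (e i) (e j) := hij
    rw [hdi, hdj j hij'] at h1
    rw [hdi, hdj j hij'] at h3
    refine h (e j) hij h1 h3 ?_
    intro w' hw' hlt
    obtain ⟨j', rfl⟩ := hi w' hw'
    congr 1
    apply h4 j' hw'
    rw [hdi, hdj j' hw']
    exact hlt

theorem good_iff {V W : Type} (R : ℕ → ℕ → Prop) (G : SimpleGraph V) (c : V → Fin 2) (e : W → V)
    (he : Function.Injective e) (i : W) (hr : Set.range e = {w | G.edist (e i) w ≤ 2}) :
    Good R (SimpleGraph.comap e G) (c ∘ e) i ↔ Good R G c (e i) := by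
  refine good_iff' R G c e he i ?_ ?_
  · intro w hw
    rw [hr]
    exact (edist_le_two_of_adj hw).trans (by norm_num)
  · intro w hw w' hw'
    rw [hr]
    calc G.edist (e i) w' ≤ G.edist (e i) w + G.edist w w' := SimpleGraph.edist_triangle
      _ ≤ 1 + 1 := add_le_add (edist_le_two_of_adj hw) (edist_le_two_of_adj hw')
      _ = 2 := by norm_num

/-- Existence of an enumeration of the ball of radius two. -/
theorem exists_enum {V : Type} (G : SimpleGraph V) (hfin : ∀ v, (G.neighborSet v).Finite) (v : V) :
    ∃ n : ℕ, ∃ e : Fin (n + 1) → V, Function.Injective e ∧ e 0 = v ∧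
      Set.range e = {w : V | G.edist v w ≤ 2} := by
  classical
  have hB : {w : V | G.edist v w ≤ 2}.Finite := by
    have hsub : {w : V | G.edist v w ≤ 2} ⊆
        {v} ∪ (G.neighborSet v ∪ ⋃ u ∈ G.neighborSet v, G.neighborSet u) := by
      intro w hw
      have hw' : G.edist v w ≤ 2 := hw
      have hne : G.edist v w ≠ ⊤ := by
        intro h
        rw [h] at hw'
        exact absurd hw' (by simp)
      obtain ⟨p, hp⟩ := SimpleGraph.exists_walk_of_edist_ne_top hne
      rw [← hp] at hw'
      have hlen : p.length ≤ 2 := by exact_mod_cast hw'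
      cases p with
      | nil => left; rfl
      | cons h q =>
        right
        cases q with
        | nil => left; exact h
        | cons h' q' =>
          right
          cases q' with
          | nil =>
            simp only [Set.mem_iUnion]
            exact ⟨_, h, h'⟩
          | cons h'' q'' =>
            simp at hlen
    refine Set.Finite.subset ?_ hsub
    refine (Set.finite_singleton v).union ((hfin v).union ?_)
    exact (hfin v).biUnion (fun u _ => hfin u)
  have hv : v ∈ {w : V | G.edist v w ≤ 2} := by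
    simp
  obtain ⟨n, hn⟩ : ∃ n, hB.toFinset.card = n + 1 := by
    refine Nat.exists_eq_succ_of_ne_zero ?_
    rw [Finset.card_ne_zero]
    exact ⟨v, hB.mem_toFinset.2 hv⟩
  let eq := (hB.toFinset.equivFinOfCardEq hn).symm
  let i0 := eq.symm ⟨v, hB.mem_toFinset.2 hv⟩
  refine ⟨n, fun i => (eq (Equiv.swap 0 i0 i)).1, ?_, ?_, ?_⟩
  · intro i j hij
    have := eq.injective (Subtype.ext hij)
    exact (Equiv.swap 0 i0).injective this
  · simp [i0]
  · ext w
    constructor
    · rintro ⟨i, rfl⟩
      exact hB.mem_toFinset.1 (eq (Equiv.swap 0 i0 i)).2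
    · intro hw
      refine ⟨(Equiv.swap 0 i0).symm (eq.symm ⟨w, hB.mem_toFinset.2 hw⟩), ?_⟩
      simp

/-! ### The Borel graph -/

abbrev Cantor := ℕ → Bool

def sh (a : Cantor) : Cantor := fun n => a (n + 1)

def cons (b : Bool) (a : Cantor) : Cantor := fun n => Nat.casesOn n b a

@[simp] theorem sh_cons (b : Bool) (a : Cantor) : sh (cons b a) = a := rfl

@[simp] theorem cons_zero (b : Bool) (a : Cantor) : cons b a 0 = b := rfl

@[simp] theorem cons_succ (b : Bool) (a : Cantor) (n : ℕ) : cons b a (n+1) = a n := rfl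

theorem cons_sh (a : Cantor) : cons (a 0) (sh a) = a := by
  funext n
  cases n <;> rfl

def inc (b : Bool) : ℕ := if b then 2 else 1

abbrev XX := ℕ × ℕ × Cantor

/-- forward edges -/
def RR (p : ℕ → ℕ) (x y : XX) : Prop :=
  (x.2.1 = 0 ∧ y.2.1 = 0 ∧ y.1 = x.1 + inc (x.2.2 0) ∧ y.2.2 = sh x.2.2) ∨
  (x.2.1 = 0 ∧ 1 ≤ y.2.1 ∧ y.2.1 ≤ p x.1 ∧ y.1 = x.1 ∧ y.2.2 = x.2.2)

def GG (p : ℕ → ℕ) : SimpleGraph XX := SimpleGraph.fromRel (RR p)

theorem inc_pos (b : Bool) : 1 ≤ inc b := by cases b <;> simp [inc]
theorem inc_le (b : Bool) : inc b ≤ 2 := by cases b <;> simp [inc]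

theorem RR_irrefl (p : ℕ → ℕ) (x : XX) : ¬ RR p x x := by
  rintro (⟨_, _, h, _⟩ | ⟨h0, h1, _⟩)
  · have := inc_pos (x.2.2 0)
    omega
  · omega

theorem GG_adj (p : ℕ → ℕ) (x y : XX) : (GG p).Adj x y ↔ RR p x y ∨ RR p y x := by
  unfold GG
  rw [SimpleGraph.fromRel_adj]
  constructor
  · exact fun h => h.2
  · intro h
    refine ⟨?_, h⟩
    rintro rfl
    rcases h with h | h <;> exact RR_irrefl p x h

theorem measurable_sh : Measurable sh := by
  unfold sh
  exact measurable_pi_lambda _ (fun n => measurable_pi_apply _)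

theorem measurableSet_RR (p : ℕ → ℕ) : MeasurableSet {q : XX × XX | RR p q.1 q.2} := by
  have h1 : Measurable (fun q : XX × XX => q.1.2.1) := measurable_fst.comp (measurable_snd.comp measurable_fst)
  have h2 : Measurable (fun q : XX × XX => q.2.2.1) := measurable_fst.comp (measurable_snd.comp measurable_snd)
  have h3 : Measurable (fun q : XX × XX => q.2.1) := measurable_fst.comp measurable_snd
  have h4 : Measurable (fun q : XX × XX => q.1.1) := measurable_fst.comp measurable_fst
  have h5 : Measurable (fun q : XX × XX => q.1.2.2) := measurable_snd.comp (measurable_snd.comp measurable_fst)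
  have h6 : Measurable (fun q : XX × XX => q.2.2.2) := measurable_snd.comp (measurable_snd.comp measurable_snd)
  have h7 : Measurable (fun q : XX × XX => inc (q.1.2.2 0)) :=
    (measurable_from_top (f := inc)).comp ((measurable_pi_apply 0).comp h5)
  have h8 : Measurable (fun q : XX × XX => p q.1.1) := (measurable_from_top (f := p)).comp h4
  have e1 : MeasurableSet {q : XX × XX | q.1.2.1 = 0} := measurableSet_eq_fun h1 measurable_const
  have e2 : MeasurableSet {q : XX × XX | q.2.2.1 = 0} := measurableSet_eq_fun h2 measurable_const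
  have e3 : MeasurableSet {q : XX × XX | q.2.1 = q.1.1 + inc (q.1.2.2 0)} :=
    measurableSet_eq_fun h3 (h4.add h7)
  have e4 : MeasurableSet {q : XX × XX | q.2.2.2 = sh q.1.2.2} :=
    measurableSet_eq_fun h6 (measurable_sh.comp h5)
  have e5 : MeasurableSet {q : XX × XX | 1 ≤ q.2.2.1} := measurableSet_le measurable_const h2
  have e6 : MeasurableSet {q : XX × XX | q.2.2.1 ≤ p q.1.1} := measurableSet_le h2 h8
  have e7 : MeasurableSet {q : XX × XX | q.2.1 = q.1.1} := measurableSet_eq_fun h3 h4
  have e8 : MeasurableSet {q : XX × XX | q.2.2.2 = q.1.2.2} := measurableSet_eq_fun h6 h5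
  exact (e1.inter (e2.inter (e3.inter e4))).union
    (e1.inter (e5.inter (e6.inter (e7.inter e8))))

theorem measurableSet_GG (p : ℕ → ℕ) : MeasurableSet {q : XX × XX | (GG p).Adj q.1 q.2} := by
  have h := measurableSet_RR p
  have h' : MeasurableSet {q : XX × XX | RR p q.2 q.1} := measurable_swap h
  have : {q : XX × XX | (GG p).Adj q.1 q.2} = {q : XX × XX | RR p q.1 q.2} ∪ {q : XX × XX | RR p q.2 q.1} := by
    ext q
    simp only [Set.mem_ofPred_eq, GG_adj, Set.mem_union]
  rw [this]
  exact h.union h'

theorem finite_GG (p : ℕ → ℕ) (x : XX) : ((GG p).neighborSet x).Finite := by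
  have hsub : (GG p).neighborSet x ⊆ (Set.Iic (x.1 + 2)) ×ˢ ((Set.Iic (p x.1)) ×ˢ
      {sh x.2.2, x.2.2, cons false x.2.2, cons true x.2.2}) := by
    intro y hy
    rw [SimpleGraph.mem_neighborSet, GG_adj] at hy
    rcases hy with (⟨h1, h2, h3, h4⟩ | ⟨h1, h2, h3, h4, h5⟩) | (⟨h1, h2, h3, h4⟩ | ⟨h1, h2, h3, h4, h5⟩)
    · refine ⟨?_, ?_, ?_⟩
      · have := inc_le (x.2.2 0)
        simp only [Set.mem_Iic]; omega
      · simp only [Set.mem_Iic]; omega
      · left; exact h4
    · refine ⟨?_, ?_, ?_⟩
      · simp only [Set.mem_Iic]; omega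
      · simp only [Set.mem_Iic]; omega
      · right; left; exact h5
    · refine ⟨?_, ?_, ?_⟩
      · simp only [Set.mem_Iic]; omega
      · simp only [Set.mem_Iic]; omega
      · right; right
        have := cons_sh y.2.2
        rw [← h4] at this
        cases hb : y.2.2 0
        · left; rw [hb] at this; exact this.symm
        · right; rw [hb] at this; exact this.symm
    · refine ⟨?_, ?_, ?_⟩
      · simp only [Set.mem_Iic]; omega
      · simp only [Set.mem_Iic]; omega
      · right; left; exact h5.symm
  refine Set.Finite.subset ?_ hsub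
  exact (Set.finite_Iic _).prod ((Set.finite_Iic _).prod (Set.toFinite _))

open Classical in
/-- neighbours of a main vertex -/
theorem neighborSet_main (p : ℕ → ℕ) (n : ℕ) (a : Cantor) :
    (GG p).neighborSet (n, 0, a) =
      ((({(n + inc (a 0), 0, sh a)} : Finset XX) ∪
        (Finset.Icc 1 (p n)).map ⟨fun j => (n, j, a), fun i j h => by simpa using h⟩) ∪
        ((if 1 ≤ n then {(n - 1, 0, cons false a)} else ∅) ∪
          (if 2 ≤ n then {(n - 2, 0, cons true a)} else ∅)) : Finset XX) := by
  ext ⟨m, j, b⟩
  rw [SimpleGraph.mem_neighborSet, GG_adj]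
  simp only [RR, Finset.coe_union, Set.mem_union, Finset.coe_singleton, Set.mem_singleton_iff,
    Finset.coe_map, Set.mem_image, Finset.mem_coe, Finset.mem_Icc, Function.Embedding.coeFn_mk,
    Prod.mk.injEq]
  constructor
  · rintro ((⟨_, rfl, rfl, rfl⟩ | ⟨_, h2, h3, rfl, rfl⟩) | (⟨rfl, _, h3, rfl⟩ | ⟨_, h2, _⟩))
    · left; left; exact ⟨rfl, rfl, rfl⟩
    · left; right; exact ⟨j, ⟨h2, h3⟩, rfl, rfl, rfl⟩
    · right
      cases hb : b 0
      · left
        have h4 : n = m + 1 := by rw [hb] at h3; exact h3
        have h5 := cons_sh b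
        rw [hb] at h5
        rw [if_pos (by omega)]
        simp [h5, h4]
      · right
        have h4 : n = m + 2 := by rw [hb] at h3; exact h3
        have h5 := cons_sh b
        rw [hb] at h5
        rw [if_pos (by omega)]
        simp [h5, h4]
    · omega
  · rintro ((⟨rfl, rfl, rfl⟩ | ⟨i, ⟨h1, h2⟩, rfl, rfl, rfl⟩) | (h | h))
    · left; left; exact ⟨trivial, rfl, rfl, rfl⟩
    · left; right; exact ⟨trivial, h1, h2, rfl, rfl⟩
    · right; left
      split_ifs at h with hn
      · simp only [Finset.mem_singleton, Prod.mk.injEq] at h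
        obtain ⟨rfl, rfl, rfl⟩ := h
        refine ⟨rfl, trivial, ?_, rfl⟩
        simp only [cons_zero, inc]
        simp; omega
      · simp at h
    · right; left
      split_ifs at h with hn
      · simp only [Finset.mem_singleton, Prod.mk.injEq] at h
        obtain ⟨rfl, rfl, rfl⟩ := h
        refine ⟨rfl, trivial, ?_, rfl⟩
        simp only [cons_zero, inc]
        simp; omega
      · simp at h

open Classical in
theorem dg_main (p : ℕ → ℕ) (n : ℕ) (a : Cantor) :
    dg (GG p) (n, 0, a) = 1 + p n + min n 2 := by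
  unfold dg
  rw [neighborSet_main, Set.ncard_coe_finset, Finset.card_union_of_disjoint,
    Finset.card_union_of_disjoint, Finset.card_union_of_disjoint, Finset.card_map,
    Finset.card_singleton, Nat.card_Icc]
  · rcases n with _ | _ | n
    · simp
    · simp
    · simp
  · rw [Finset.disjoint_left]
    intro y hy hy'
    split_ifs at hy hy'
    · simp only [Finset.mem_singleton] at hy hy'
      rw [hy] at hy'
      simp at hy'
      omega
    all_goals simp_all
  · rw [Finset.disjoint_left]
    intro y hy hy'
    simp only [Finset.mem_singleton, Finset.mem_map, Finset.mem_Icc,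
      Function.Embedding.coeFn_mk] at hy hy'
    obtain ⟨i, ⟨h1, h2⟩, rfl⟩ := hy'
    simp at hy
    omega
  · rw [Finset.disjoint_left]
    intro y hy hy'
    have hy1 : y.1 < n := by
      rw [Finset.mem_union] at hy'
      rcases hy' with h | h
      · split_ifs at h
        · simp only [Finset.mem_singleton] at h
          rw [h]; simp; omega
        · simp at h
      · split_ifs at h
        · simp only [Finset.mem_singleton] at h
          rw [h]; simp; omega
        · simp at h
    rw [Finset.mem_union] at hy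
    rcases hy with h | h
    · simp only [Finset.mem_singleton] at h
      rw [h] at hy1
      simp at hy1
    · simp only [Finset.mem_map, Finset.mem_Icc, Function.Embedding.coeFn_mk] at h
      obtain ⟨i, _, rfl⟩ := h
      simp at hy1

theorem dg_pendant (p : ℕ → ℕ) (n j : ℕ) (hj : 1 ≤ j) (a : Cantor) :
    dg (GG p) (n, j, a) ≤ 1 := by
  unfold dg
  have hsub : (GG p).neighborSet (n, j, a) ⊆ {(n, 0, a)} := by
    rintro ⟨m, i, b⟩ hy
    rw [SimpleGraph.mem_neighborSet, GG_adj] at hy
    simp only [RR] at hy
    rcases hy with (⟨h1, _⟩ | ⟨h1, _⟩) | (⟨_, h1, _⟩ | ⟨h1, h2, h3, h4, h5⟩)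
    · omega
    · omega
    · omega
    · simp [h1, h4, h5]
  calc ((GG p).neighborSet (n, j, a)).ncard ≤ ({(n, 0, a)} : Set XX).ncard :=
        Set.ncard_le_ncard hsub (Set.finite_singleton _)
    _ = 1 := Set.ncard_singleton _

/-! ### Baire category -/

open Filter Topology

theorem continuous_sh : Continuous sh := continuous_pi (fun n => continuous_apply (n+1))

theorem continuous_cons (b : Bool) : Continuous (cons b) := by
  refine continuous_pi ?_
  intro n
  cases n with
  | zero => exact continuous_const
  | succ n => exact continuous_apply n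

theorem isOpenMap_cons (b : Bool) : IsOpenMap (cons b) := by
  intro U hU
  have : cons b '' U = (fun a : Cantor => a 0) ⁻¹' {b} ∩ sh ⁻¹' U := by
    ext a
    constructor
    · rintro ⟨x, hx, rfl⟩
      exact ⟨rfl, hx⟩
    · rintro ⟨h0, h1⟩
      refine ⟨sh a, h1, ?_⟩
      have h0' : a 0 = b := h0
      rw [← h0', cons_sh]
  rw [this]
  exact ((isOpen_discrete _).preimage (continuous_apply 0)).inter (hU.preimage continuous_sh)

theorem isOpenMap_emb (n : ℕ) : IsOpenMap (fun a : Cantor => ((n, 0, a) : XX)) := by
  intro U hU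
  have : (fun a : Cantor => ((n, 0, a) : XX)) '' U = {n} ×ˢ (({0} : Set ℕ) ×ˢ U) := by
    ext ⟨m, j, a⟩
    simp only [Set.mem_image, Prod.mk.injEq, Set.mem_prod, Set.mem_singleton_iff]
    constructor
    · rintro ⟨x, hx, rfl, rfl, rfl⟩
      exact ⟨rfl, rfl, hx⟩
    · rintro ⟨rfl, rfl, h⟩
      exact ⟨a, h, rfl, rfl, rfl⟩
  rw [this]
  exact (isOpen_discrete _).prod ((isOpen_discrete _).prod hU)

theorem continuous_emb (n : ℕ) : Continuous (fun a : Cantor => ((n, 0, a) : XX)) := by
  fun_prop

theorem fin2_ne {x i : Fin 2} (h : i ≠ x) : x = i + 1 := by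
  revert x i
  decide

theorem no_baire (c : XX → Fin 2) (hc : ∀ i, BaireMeasurableSet (c ⁻¹' {i}))
    (hne : ∀ n a, c (n, 0, a) ≠ c (n + inc (a 0), 0, sh a)) : False := by
  -- pulling back along `cons`
  have pull : ∀ (b : Bool) (P : Cantor → Prop), (∀ᵇ a, P a) → ∀ᵇ a, P (cons b a) := by
    intro b P hP
    exact tendsto_residual_of_isOpenMap (continuous_cons b) (isOpenMap_cons b) hP
  -- there is a cylinder on which the colour is generically constant
  have h1 : ∃ k n : ℕ, ∃ σ : Cantor, ∃ i : Fin 2,
      ∀ᵇ a : Cantor, (∀ m < k, a m = σ m) → c (n, 0, a) = i := by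
    have hB : BaireMeasurableSet ((fun a : Cantor => ((0, 0, a) : XX)) ⁻¹' (c ⁻¹' {0})) :=
      (hc 0).preimage (continuous_emb 0) (isOpenMap_emb 0)
    obtain ⟨U, hU, hBU⟩ := hB.residualEq_isOpen
    rcases U.eq_empty_or_nonempty with rfl | ⟨a0, ha0⟩
    · refine ⟨0, 0, fun _ => false, 1, ?_⟩
      filter_upwards [hBU] with a ha _
      have ha' : ¬ (c (0, 0, a) = 0) := by
        intro h
        have : ((fun a : Cantor => ((0, 0, a) : XX)) ⁻¹' (c ⁻¹' {0})) a := h
        rw [ha] at this
        exact this
      have := fin2_ne (i := 0) (x := c (0, 0, a)) (fun h => ha' h.symm)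
      simpa using this
    · obtain ⟨V, ⟨x, k, rfl⟩, hxV, hVU⟩ :=
        (PiNat.isTopologicalBasis_cylinders (fun _ : ℕ => Bool)).exists_subset_of_mem_open ha0 hU
      refine ⟨k, 0, x, 0, ?_⟩
      filter_upwards [hBU] with a ha hax
      have : U a := hVU hax
      rw [← ha] at this
      exact this
  obtain ⟨k, h1⟩ := h1
  have h2 : ∃ n : ℕ, ∃ i : Fin 2, ∀ᵇ a : Cantor, c (n, 0, a) = i := by
    induction k with
    | zero =>
      obtain ⟨n, σ, i, h⟩ := h1
      refine ⟨n, i, ?_⟩
      filter_upwards [h] with a ha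
      exact ha (fun m hm => absurd hm (Nat.not_lt_zero m))
    | succ k ih =>
      apply ih
      obtain ⟨n, σ, i, h⟩ := h1
      refine ⟨n + inc (σ 0), sh σ, i + 1, ?_⟩
      filter_upwards [pull (σ 0) _ h] with a ha hσ
      have h3 : c (n, 0, cons (σ 0) a) = i := by
        apply ha
        intro m hm
        cases m with
        | zero => rfl
        | succ m => exact hσ m (by omega)
      have h4 := hne n (cons (σ 0) a)
      rw [h3, cons_zero, sh_cons] at h4
      exact fin2_ne h4
  obtain ⟨n, i, h⟩ := h2
  have step : ∀ (n : ℕ) (i : Fin 2) (b : Bool), (∀ᵇ a : Cantor, c (n, 0, a) = i) →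
      ∀ᵇ a : Cantor, c (n + inc b, 0, a) = i + 1 := by
    intro n i b h
    filter_upwards [pull b _ h] with a ha
    have h4 := hne n (cons b a)
    rw [ha, cons_zero, sh_cons] at h4
    exact fin2_ne h4
  have e1 : ∀ᵇ a : Cantor, c (n + 2, 0, a) = i + 1 := step n i true h
  have e2 : ∀ᵇ a : Cantor, c (n + 1 + 1, 0, a) = i + 1 + 1 := step _ _ false (step n i false h)
  have e3 : ∀ᵇ a : Cantor, False := by
    filter_upwards [e1, e2] with a h1 h2
    rw [show n + 1 + 1 = n + 2 from rfl, h1] at h2
    revert h2
    generalize i = j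
    revert j
    decide
  obtain ⟨a, ha⟩ := (dense_of_mem_residual e3).nonempty
  exact ha


/-! ### Decidability of the rule -/

/-- neighbours of the vertex `i` in a code -/
def nbrs (C : List (ℕ × List ℕ)) (i : ℕ) : List ℕ := ((C[i]?).map Prod.snd).getD []

/-- label of the vertex `i` in a code -/
def lab (C : List (ℕ × List ℕ)) (i : ℕ) : ℕ := ((C[i]?).map Prod.fst).getD 0

theorem primrec_nbrs : Primrec₂ nbrs := by
  unfold nbrs
  exact Primrec.option_getD.comp (Primrec.option_map (Primrec.list_getElem?.comp Primrec.fst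
    Primrec.snd) (Primrec.snd.comp Primrec.snd).to₂) (Primrec.const [])

theorem primrec_lab : Primrec₂ lab := by
  unfold lab
  exact Primrec.option_getD.comp (Primrec.option_map (Primrec.list_getElem?.comp Primrec.fst
    Primrec.snd) (Primrec.fst.comp Primrec.snd).to₂) (Primrec.const 0)

/-- degree of the vertex `i` in a code -/
def cdg (C : List (ℕ × List ℕ)) (i : ℕ) : ℕ := (nbrs C i).length

theorem primrec_cdg : Primrec₂ cdg := Primrec.list_length.comp primrec_nbrs

/-- The neighbour `w` of the root respects the rule. -/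
def Dw (w : ℕ) (C : List (ℕ × List ℕ)) : Prop :=
  ¬ (RD (cdg C 0) (cdg C w) ∧ (cdg C 0 < cdg C w ∧
    ((∀ w' ∈ nbrs C 0, ¬ (cdg C 0 < cdg C w' ∧ ¬ w' = w)) ∧ lab C 0 = lab C w)))

theorem primrecRel_Dw : PrimrecRel Dw := by
  have h0 : Primrec fun x : ℕ × List (ℕ × List ℕ) => cdg x.2 0 :=
    primrec_cdg.comp Primrec.snd (Primrec.const 0)
  have hw : Primrec fun x : ℕ × List (ℕ × List ℕ) => cdg x.2 x.1 :=
    primrec_cdg.comp Primrec.snd Primrec.fst
  have hn : Primrec fun x : ℕ × List (ℕ × List ℕ) => nbrs x.2 0 :=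
    primrec_nbrs.comp Primrec.snd (Primrec.const 0)
  have hl0 : Primrec fun x : ℕ × List (ℕ × List ℕ) => lab x.2 0 :=
    primrec_lab.comp Primrec.snd (Primrec.const 0)
  have hlw : Primrec fun x : ℕ × List (ℕ × List ℕ) => lab x.2 x.1 :=
    primrec_lab.comp Primrec.snd Primrec.fst
  have hR : PrimrecRel fun (w' : ℕ) (x : ℕ × List (ℕ × List ℕ)) =>
      ¬ (cdg x.2 0 < cdg x.2 w' ∧ ¬ w' = x.1) := by
    refine PrimrecPred.not (PrimrecPred.and ?_ (PrimrecPred.not ?_))
    · exact Primrec.nat_lt.comp (h0.comp Primrec.snd)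
        (primrec_cdg.comp (Primrec.snd.comp Primrec.snd) Primrec.fst)
    · exact Primrec.eq.comp Primrec.fst (Primrec.fst.comp Primrec.snd)
  have hall : PrimrecPred fun x : ℕ × List (ℕ × List ℕ) =>
      ∀ w' ∈ nbrs x.2 0, ¬ (cdg x.2 0 < cdg x.2 w' ∧ ¬ w' = x.1) :=
    (PrimrecRel.forall_mem_list hR).comp hn Primrec.id
  exact PrimrecPred.not ((primrecRel_RD.comp h0 hw).and ((Primrec.nat_lt.comp h0 hw).and
    (hall.and (Primrec.eq.comp hl0 hlw))))

/-- The decision predicate. -/
def DD (C : List (ℕ × List ℕ)) : Prop := ∀ w ∈ nbrs C 0, Dw w C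

theorem primrecPred_DD : PrimrecPred DD :=
  (PrimrecRel.forall_mem_list primrecRel_Dw).comp (primrec_nbrs.comp Primrec.id (Primrec.const 0))
    Primrec.id

theorem getElem_finRange (n : ℕ) (i : Fin (n + 1)) :
    (List.finRange (n + 1))[(i : ℕ)]? = some i := by
  rw [List.getElem?_eq_getElem (by simp; omega)]
  simp

open Classical in
theorem nbrs_code {n k : ℕ} (Γ : SimpleGraph (Fin (n + 1))) (ℓ : Fin (n + 1) → Fin k)
    (i : Fin (n + 1)) : nbrs (code Γ ℓ) i =
      List.map (fun j : Fin (n + 1) => (j : ℕ))
        (List.filter (fun j : Fin (n + 1) => Γ.Adj i j) (List.finRange (n + 1))) := by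
  unfold nbrs code
  simp [getElem_finRange]

theorem lab_code {n k : ℕ} (Γ : SimpleGraph (Fin (n + 1))) (ℓ : Fin (n + 1) → Fin k)
    (i : Fin (n + 1)) : lab (code Γ ℓ) i = ℓ i := by
  unfold lab code
  simp [getElem_finRange]

theorem mem_nbrs_code {n k : ℕ} (Γ : SimpleGraph (Fin (n + 1))) (ℓ : Fin (n + 1) → Fin k)
    (i : Fin (n + 1)) (w : ℕ) : w ∈ nbrs (code Γ ℓ) i ↔ ∃ j : Fin (n + 1), Γ.Adj i j ∧ w = j := by
  rw [nbrs_code]
  simp only [List.mem_map, List.mem_filter, List.mem_finRange, true_and, decide_eq_true_eq]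
  constructor
  · rintro ⟨j, h1, h2⟩
    exact ⟨j, h1, h2.symm⟩
  · rintro ⟨j, h1, h2⟩
    exact ⟨j, h1, h2.symm⟩

open Classical in
theorem cdg_code {n k : ℕ} (Γ : SimpleGraph (Fin (n + 1))) (ℓ : Fin (n + 1) → Fin k)
    (i : Fin (n + 1)) : cdg (code Γ ℓ) i = dg Γ i := by
  unfold cdg dg
  rw [nbrs_code, List.length_map]
  have h1 : Γ.neighborSet i = ((List.finRange (n + 1)).filter fun j => Γ.Adj i j).toFinset := by
    ext j
    simp
  rw [h1, Set.ncard_coe_finset, List.toFinset_card_of_nodup]
  exact (List.nodup_finRange _).filter _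

theorem good_iff_DD {n : ℕ} (Γ : SimpleGraph (Fin (n + 1))) (ℓ : Fin (n + 1) → Fin 2) :
    Good RD Γ ℓ 0 ↔ DD (code Γ ℓ) := by
  have h0 : cdg (code Γ ℓ) 0 = dg Γ 0 := cdg_code Γ ℓ 0
  have hm : ∀ w, w ∈ nbrs (code Γ ℓ) 0 ↔ ∃ j : Fin (n + 1), Γ.Adj 0 j ∧ w = j :=
    mem_nbrs_code Γ ℓ 0
  have hl : lab (code Γ ℓ) 0 = ℓ 0 := lab_code Γ ℓ 0
  constructor
  · intro h w hw
    rw [hm] at hw
    obtain ⟨j, hj, rfl⟩ := hw
    rintro ⟨h1, h2, h3, h4⟩
    rw [h0, cdg_code] at h1 h2
    rw [hl, lab_code] at h4
    refine h j hj h1 h2 ?_ (Fin.ext h4)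
    intro j' hj' hlt
    by_contra hne
    refine h3 j' ((hm _).2 ⟨j', hj', rfl⟩) ⟨?_, fun h => hne (Fin.ext h)⟩
    rw [h0, cdg_code]
    exact hlt
  · intro h j hj h1 h2 h3 h4
    refine h j ((hm _).2 ⟨j, hj, rfl⟩) ⟨?_, ?_, ?_, ?_⟩
    · rw [h0, cdg_code]; exact h1
    · rw [h0, cdg_code]; exact h2
    · rintro w' hw' ⟨h5, h6⟩
      rw [hm] at hw'
      obtain ⟨j', hj', rfl⟩ := hw'
      rw [h0, cdg_code] at h5
      exact h6 (congrArg _ (h3 j' hj' h5))
    · rw [hl, lab_code, h4]

/-! ### The result -/

theorem result : ∃ (k r : ℕ) (P : Rule k), IsoInvariant P ∧ DecidableCodes P ∧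
    (∀ H : SimpleGraph ℕ, HighlyComputable H →
      ∃ c : ℕ → Fin k, Computable c ∧ IsSolution r P H c) ∧
    ∃ (X : Type) (_ : TopologicalSpace X) (_ : PolishSpace X) (_ : MeasurableSpace X)
      (_ : BorelSpace X) (G : SimpleGraph X),
      MeasurableSet {p : X × X | G.Adj p.1 p.2} ∧ (∀ x : X, (G.neighborSet x).Finite) ∧
      ∀ c : X → Fin k, (∀ i : Fin k, BaireMeasurableSet (c ⁻¹' {i})) → ¬ IsSolution r P G c := by
  refine ⟨2, 2, fun n Γ ℓ => Good RD Γ ℓ 0, ?_, ?_, ?_, ?_⟩
  · intro n Γ ℓ σ hσ
    have := good_iff' RD Γ ℓ σ σ.injective 0 (fun w _ => σ.surjective w)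
      (fun w _ w' _ => σ.surjective w')
    rw [hσ] at this
    exact this
  · obtain ⟨hd, hD⟩ := primrecPred_DD
    exact ⟨DD, ⟨hd, hD.to_comp⟩, fun n Γ ℓ => good_iff_DD Γ ℓ⟩
  · -- computable colourings of highly computable graphs
    rintro H ⟨nb, hnb, hadj⟩
    obtain ⟨c, hc, hcol⟩ := exists_coloring hnb
    have hfin : ∀ v, (H.neighborSet v).Finite := by
      intro v
      refine Set.Finite.subset (nb v).toFinset.finite_toSet ?_
      intro w hw
      rw [SimpleGraph.mem_neighborSet, hadj] at hw
      simpa using hw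
    have hdg : ∀ v, dg H v = dgl (nb v) := by
      intro v
      unfold dg dgl
      have : H.neighborSet v = ((nb v).toFinset : Set ℕ) := by
        ext w
        rw [SimpleGraph.mem_neighborSet, hadj]
        simp
      rw [this, Set.ncard_coe_finset, List.card_toFinset]
    refine ⟨c, hc, ?_⟩
    intro v
    obtain ⟨n, e, he, he0, hr⟩ := exists_enum H hfin v
    refine ⟨n, e, he, he0, ?_, ?_⟩
    · rw [hr]; rfl
    · refine (good_iff RD H c e he 0 ?_).2 ?_
      · rw [hr, he0]
      · rw [he0]
        intro w hw h1 h3 h5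
        rw [hdg, hdg] at h1 h3
        have hn : nxt nb v = w := by
          refine nxt_of_unique ((hadj v w).1 hw) h3 ?_
          intro w' hw' hlt
          refine h5 w' ((hadj v w').2 hw') ?_
          rw [hdg, hdg]
          exact hlt
        have := hcol v (by rw [hn]; exact h1) (by rw [hn]; exact hw.ne')
        rwa [hn] at this
  · refine ⟨XX, inferInstance, inferInstance, inferInstance, inferInstance,
      GG (fun n => ss n - 1 - min n 2), measurableSet_GG _, finite_GG _, ?_⟩
    intro c hc hv
    refine no_baire c hc ?_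
    intro n a
    obtain ⟨m, e, he, he0, hr, hP⟩ := hv (n, 0, a)
    have hgood : Good RD (GG (fun n => ss n - 1 - min n 2)) c (n, 0, a) := by
      rw [← he0]
      refine (good_iff RD _ c e he 0 ?_).1 hP
      rw [hr, he0]
      rfl
    have hdeg : ∀ n a, dg (GG (fun n => ss n - 1 - min n 2)) (n, 0, a) = ss n := by
      intro n a
      rw [dg_main]
      have := four_le_ss n
      omega
    refine hgood (n + inc (a 0), 0, sh a) ?_ ?_ ?_ ?_
    · rw [GG_adj]
      left; left
      exact ⟨rfl, rfl, rfl, rfl⟩
    · rw [hdeg, hdeg]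
      apply RD_ss
      unfold inc
      split_ifs
      · right; rfl
      · left; rfl
    · rw [hdeg, hdeg]
      apply ss_mono
      have := inc_pos (a 0)
      omega
    · rintro ⟨m', j, b⟩ hadj hlt
      rw [GG_adj] at hadj
      rw [hdeg] at hlt
      simp only [RR] at hadj
      rcases hadj with (⟨_, rfl, rfl, rfl⟩ | ⟨_, h2, h3, rfl, rfl⟩) | (⟨rfl, _, h3, rfl⟩ | ⟨_, h2, _⟩)
      · rfl
      · exfalso
        have := dg_pendant (fun n => ss n - 1 - min n 2) m' j h2 b
        have := four_le_ss m'
        omega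
      · exfalso
        rw [hdeg] at hlt
        have := ss_mono.lt_iff_lt.1 hlt
        omega
      · omega

end Pool.Agent.Results.MP_8bf09d_lc.DecidableRule
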